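import Mathlib

set_option autoImplicit false

/-! # T2b: the number of `d`-th powers modulo a prime -/

namespace Pool.Agent.H307R2.PW

open scoped Classical in
/-- There are at most `1 + (p - 1) / gcd (d, p - 1)` residues `-x ^ d` modulo the prime `p`. -/
theorem t2b (p : ℕ) [Fact p.Prime] (d : ℕ) (hd : 1 ≤ d) :
    ((Finset.univ.image (fun x : ZMod p => -x ^ d)).card : ℝ) * (Nat.gcd d (p - 1) : ℝ) ≤
      (Nat.gcd d (p - 1) : ℝ) + (p : ℝ) - 1 := by
  have hp : p.Prime := Fact.out
  set φ : (ZMod p)ˣ →* (ZMod p)ˣ := powMonoidHom d with hφ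
  have hcardU : Nat.card (ZMod p)ˣ = p - 1 := by
    exact Nat.card_eq_fintype_card.trans (ZMod.card_units p)
  have hr : Nat.card φ.range = (p - 1) / (p - 1).gcd d := by
    have := IsCyclic.card_powMonoidHom_range (G := (ZMod p)ˣ) d
    rw [hcardU] at this
    exact this
  have hmul : Nat.card φ.range * Nat.gcd d (p - 1) = p - 1 := by
    rw [hr, Nat.gcd_comm d]
    exact Nat.div_mul_cancel (Nat.gcd_dvd_left _ _)
  have : Fintype φ.range := Fintype.ofFinite _
  have hsub : Finset.univ.image (fun x : ZMod p => -x ^ d) ⊆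
      insert 0 (Finset.univ.image (fun u : φ.range => -((u : (ZMod p)ˣ) : ZMod p))) := by
    intro y hy
    obtain ⟨x, -, rfl⟩ := Finset.mem_image.1 hy
    by_cases hx : x = 0
    · subst hx
      rw [zero_pow (by omega), neg_zero]
      exact Finset.mem_insert_self _ _
    · apply Finset.mem_insert_of_mem
      refine Finset.mem_image.2 ⟨⟨φ (Units.mk0 x hx), ⟨_, rfl⟩⟩, Finset.mem_univ _, ?_⟩
      simp [hφ]
  have hcard : (Finset.univ.image (fun x : ZMod p => -x ^ d)).card ≤ Nat.card φ.range + 1 := by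
    refine (Finset.card_le_card hsub).trans ((Finset.card_insert_le _ _).trans ?_)
    have h1 := Finset.card_image_le (s := (Finset.univ : Finset φ.range))
      (f := fun u : φ.range => -((u : (ZMod p)ˣ) : ZMod p))
    rw [Finset.card_univ, ← Nat.card_eq_fintype_card] at h1
    omega
  have h2 : ((Finset.univ.image (fun x : ZMod p => -x ^ d)).card : ℝ) ≤
      (Nat.card φ.range : ℝ) + 1 := by exact_mod_cast hcard
  have h3 : (Nat.card φ.range : ℝ) * (Nat.gcd d (p - 1) : ℝ) = (p : ℝ) - 1 := by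
    have h4 : ((Nat.card φ.range * Nat.gcd d (p - 1) : ℕ) : ℝ) = ((p - 1 : ℕ) : ℝ) := by
      rw [hmul]
    rw [Nat.cast_mul, Nat.cast_sub hp.one_lt.le, Nat.cast_one] at h4
    exact h4
  have h5 : (0 : ℝ) ≤ (Nat.gcd d (p - 1) : ℝ) := Nat.cast_nonneg _
  nlinarith

end Pool.Agent.H307R2.PW
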