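import Pool.Agent.H307R2.PW.Defs
import Pool.Agent.H474R2.GE.FA

set_option autoImplicit false

/-! # T3: the product over the primes (Mertens) -/

namespace Pool.Agent.H307R2.PW

open Finset Pool.Agent.H474R2.PG

open scoped Classical

/-- the arithmetic lemma -/
def T3bStmt : Prop := ∀ d : ℕ, 1 ≤ d → ∀ p : ℕ, p.Prime → ¬ p ∣ d →
  ∑ e ∈ d.divisors, rho (Polynomial.cyclotomic e ℤ) p ≤ gp d p

theorem t3c : T3bStmt := by
  intro d hd p hp hpd
  have hfp : Fact p.Prime := ⟨hp⟩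
  set B : ℕ → Finset (ZMod p) := fun e => univ.filter (fun x => IsPrimitiveRoot x e) with hB
  have h1 : ∀ e ∈ d.divisors, rho (Polynomial.cyclotomic e ℤ) p ≤ (B e).card := by
    intro e he
    have hed := Nat.dvd_of_mem_divisors he
    have hne : ((e : ℕ) : ZMod p) ≠ 0 := by
      rw [Ne, ZMod.natCast_eq_zero_iff]
      exact fun h => hpd (h.trans hed)
    have hnz : NeZero ((e : ℕ) : ZMod p) := ⟨hne⟩
    unfold rho
    refine Finset.card_le_card_of_injOn (fun a => (a : ZMod p)) ?_ ?_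
    · intro a ha
      have ha' := (Finset.mem_filter.1 (Finset.mem_coe.1 ha)).2
      refine Finset.mem_coe.2 (Finset.mem_filter.2 ⟨Finset.mem_univ _, ?_⟩)
      rw [← Polynomial.isRoot_cyclotomic_iff, Polynomial.IsRoot.def,
        ← Polynomial.map_cyclotomic_int e (ZMod p)]
      have h2 := Polynomial.eval_intCast_map (Int.castRingHom (ZMod p))
        (Polynomial.cyclotomic e ℤ) (a : ℤ)
      rw [Int.cast_natCast] at h2
      rw [h2]
      have h3 := (ZMod.intCast_zmod_eq_zero_iff_dvd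
        ((Polynomial.cyclotomic e ℤ).eval (a : ℤ)) p).2 ha'
      simpa using h3
    · intro a ha b hb hab
      have ha' := Finset.mem_range.1 (Finset.mem_filter.1 (Finset.mem_coe.1 ha)).1
      have hb' := Finset.mem_range.1 (Finset.mem_filter.1 (Finset.mem_coe.1 hb)).1
      have h2 : a % p = b % p := (ZMod.natCast_eq_natCast_iff' a b p).1 hab
      rwa [Nat.mod_eq_of_lt ha', Nat.mod_eq_of_lt hb'] at h2
  have h2 : ∑ e ∈ d.divisors, (B e).card = (d.divisors.biUnion B).card := by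
    refine (Finset.card_biUnion ?_).symm
    intro e _ e' _ hne
    refine Finset.disjoint_left.2 fun x hx hx' => ?_
    exact hne ((Finset.mem_filter.1 hx).2.unique (Finset.mem_filter.1 hx').2)
  have h3 : d.divisors.biUnion B ⊆ (Polynomial.nthRoots (gp d p) (1 : ZMod p)).toFinset := by
    intro x hx
    obtain ⟨e, he, hxe⟩ := Finset.mem_biUnion.1 hx
    have hpr := (Finset.mem_filter.1 hxe).2
    have hxd : x ^ d = 1 := (hpr.pow_eq_one_iff_dvd d).2 (Nat.dvd_of_mem_divisors he)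
    have hx0 : x ≠ 0 := by
      rintro rfl
      rw [zero_pow (by omega)] at hxd
      exact zero_ne_one hxd
    have hxp : x ^ (p - 1) = 1 := ZMod.pow_card_sub_one_eq_one hx0
    have hg : 0 < gp d p := Nat.gcd_pos_of_pos_left _ (by omega)
    rw [Multiset.mem_toFinset, Polynomial.mem_nthRoots hg]
    exact pow_gcd_eq_one.2 ⟨hxd, hxp⟩
  calc ∑ e ∈ d.divisors, rho (Polynomial.cyclotomic e ℤ) p ≤ ∑ e ∈ d.divisors, (B e).card :=
        Finset.sum_le_sum h1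
    _ = (d.divisors.biUnion B).card := h2
    _ ≤ (Polynomial.nthRoots (gp d p) (1 : ZMod p)).toFinset.card := Finset.card_le_card h3
    _ ≤ Multiset.card (Polynomial.nthRoots (gp d p) (1 : ZMod p)) := Multiset.toFinset_card_le _
    _ ≤ gp d p := Polynomial.card_nthRoots _ _

theorem T3_mem_PR (w : ℝ) (hw : 0 ≤ w) (p : ℕ) : p ∈ PR w ↔ p.Prime ∧ (p : ℝ) ≤ w := by
  unfold PR
  rw [Finset.mem_filter, Finset.mem_Icc, Nat.le_floor_iff hw]
  constructor
  · rintro ⟨⟨-, h1⟩, h2⟩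
    exact ⟨h2, h1⟩
  · rintro ⟨h1, h2⟩
    exact ⟨⟨h1.one_lt.le, h2⟩, h1⟩

theorem T3_rho_le (f : Polynomial ℤ) (p : ℕ) : rho f p ≤ p := by
  unfold rho
  exact (Finset.card_filter_le _ _).trans (Finset.card_range p).le

theorem T3_Sg (r : ℕ → ℕ) (v₀ v : ℝ) (h0 : 0 ≤ v₀) (h1 : v₀ ≤ v) (S : Finset ℕ)
    (hS : ∀ p : ℕ, p ∈ S ↔ p.Prime ∧ v₀ < (p : ℝ) ∧ (p : ℝ) ≤ v) :
    Sg r v - Sg r v₀ = ∑ p ∈ S, (r p : ℝ) / (p : ℝ) := by
  have hsub : PR v₀ ⊆ PR v := by
    intro p hp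
    rw [T3_mem_PR _ h0] at hp
    rw [T3_mem_PR _ (h0.trans h1)]
    exact ⟨hp.1, hp.2.trans h1⟩
  have hSe : S = PR v \ PR v₀ := by
    ext p
    rw [hS, Finset.mem_sdiff, T3_mem_PR _ h0, T3_mem_PR _ (h0.trans h1)]
    constructor
    · rintro ⟨h2, h3, h4⟩
      exact ⟨⟨h2, h4⟩, fun h5 => absurd h3 (not_lt.2 h5.2)⟩
    · rintro ⟨⟨h2, h3⟩, h4⟩
      refine ⟨h2, ?_, h3⟩
      by_contra h5
      exact h4 ⟨h2, not_lt.1 h5⟩
  unfold Sg
  rw [hSe, ← Finset.sum_sdiff hsub]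
  ring

theorem t3_of (hb : T3bStmt) : ProdStmt := by
  intro d hd
  have hm : ∀ e : ℕ, 0 < e → ∃ C : ℝ, 0 ≤ C ∧ ∀ w : ℝ, 3 ≤ w →
      |Sg (rho (Polynomial.cyclotomic e ℤ)) w - Real.log (Real.log w)| ≤ C := by
    intro e he
    refine Pool.Agent.H474R2.GE.mertens_rho _ (Polynomial.cyclotomic.irreducible he) ?_
    rw [Polynomial.natDegree_cyclotomic]
    exact Nat.totient_pos.2 he
  choose! Cf hCf0 hCf using hm
  set Z : ℝ := ∑' n : ℕ, 1 / (n : ℝ) ^ 2 with hZ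
  have hZs : Summable (fun n : ℕ => 1 / (n : ℝ) ^ 2) :=
    Real.summable_one_div_nat_pow.2 (by norm_num)
  set τ : ℕ := d.divisors.card with hτ
  set K : ℝ := 2 * ∑ e ∈ d.divisors, Cf e + (τ : ℝ) * (d : ℝ) ^ 2 * Z with hK
  refine ⟨Real.exp K, Real.exp_pos _, ?_⟩
  intro v₀ v hv0 hv S hS
  have hdpos : (1 : ℝ) ≤ (d : ℝ) := by exact_mod_cast hd
  have hτ1 : (1 : ℝ) ≤ (τ : ℝ) := by
    have h1 : 0 < τ := Finset.card_pos.2 ⟨1, Nat.one_mem_divisors.2 (by omega)⟩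
    exact_mod_cast h1
  -- the bound for one prime
  have hone : ∀ p ∈ S, (∑ e ∈ d.divisors, (rho (Polynomial.cyclotomic e ℤ) p : ℝ) / (p : ℝ)) -
      (τ : ℝ) * (d : ℝ) ^ 2 * (1 / (p : ℝ) ^ 2) ≤
      (gp d p : ℝ) / ((gp d p : ℝ) + (p : ℝ) - 1) := by
    intro p hp
    have hpp : p.Prime := ((hS p).1 hp).1
    have hp0 : (0 : ℝ) < (p : ℝ) := by exact_mod_cast hpp.pos
    have hp1 : (1 : ℝ) ≤ (p : ℝ) := by exact_mod_cast hpp.one_lt.le
    have hg1 : (1 : ℝ) ≤ (gp d p : ℝ) := by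
      have h1 : 0 < gp d p := Nat.gcd_pos_of_pos_left _ (by omega)
      exact_mod_cast h1
    have hgd : (gp d p : ℝ) ≤ (d : ℝ) := by
      have h1 : gp d p ≤ d := Nat.gcd_le_left _ (by omega)
      exact_mod_cast h1
    have hden : (0 : ℝ) < (gp d p : ℝ) + (p : ℝ) - 1 := by linarith
    by_cases hpd : p ∣ d
    · have hple : (p : ℝ) ≤ (d : ℝ) := by exact_mod_cast Nat.le_of_dvd (by omega) hpd
      have h1 : ∑ e ∈ d.divisors, (rho (Polynomial.cyclotomic e ℤ) p : ℝ) / (p : ℝ) ≤ (τ : ℝ) := by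
        calc ∑ e ∈ d.divisors, (rho (Polynomial.cyclotomic e ℤ) p : ℝ) / (p : ℝ) ≤
              ∑ e ∈ d.divisors, (1 : ℝ) := by
              refine Finset.sum_le_sum fun e _ => ?_
              rw [div_le_one hp0]
              exact_mod_cast T3_rho_le _ p
          _ = (τ : ℝ) := by rw [Finset.sum_const, nsmul_eq_mul, mul_one]
      have h2 : 1 ≤ (d : ℝ) ^ 2 * (1 / (p : ℝ) ^ 2) := by
        rw [mul_one_div, one_le_div (by positivity)]
        exact pow_le_pow_left₀ hp0.le hple 2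
      have h3 : (τ : ℝ) ≤ (τ : ℝ) * (d : ℝ) ^ 2 * (1 / (p : ℝ) ^ 2) := by
        rw [mul_assoc]
        nlinarith
      have h4 : 0 ≤ (gp d p : ℝ) / ((gp d p : ℝ) + (p : ℝ) - 1) := by positivity
      linarith
    · have h1 : ∑ e ∈ d.divisors, (rho (Polynomial.cyclotomic e ℤ) p : ℝ) / (p : ℝ) ≤
          (gp d p : ℝ) / (p : ℝ) := by
        rw [← Finset.sum_div]
        refine div_le_div_of_nonneg_right ?_ hp0.le
        exact_mod_cast hb d hd p hpp hpd
      have h2 : (gp d p : ℝ) / (p : ℝ) - (gp d p : ℝ) ^ 2 * (1 / (p : ℝ) ^ 2) ≤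
          (gp d p : ℝ) / ((gp d p : ℝ) + (p : ℝ) - 1) := by
        rw [le_div_iff₀ hden, mul_one_div, div_sub_div _ _ hp0.ne' (by positivity : (p : ℝ) ^ 2 ≠ 0),
          div_mul_eq_mul_div, div_le_iff₀ (by positivity)]
        have h3 : 0 ≤ (gp d p : ℝ) - 1 := by linarith
        have h4 : 0 ≤ (p : ℝ) - 1 := by linarith
        nlinarith [mul_nonneg (mul_nonneg hp0.le h3) (by positivity : (0 : ℝ) ≤ (gp d p : ℝ) ^ 2),
          mul_nonneg (mul_nonneg hp0.le (by positivity : (0 : ℝ) ≤ (gp d p : ℝ) ^ 2)) h3,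
          mul_nonneg hp0.le (mul_nonneg hp0.le (by positivity : (0 : ℝ) ≤ (gp d p : ℝ)))]
      have h3 : (gp d p : ℝ) ^ 2 * (1 / (p : ℝ) ^ 2) ≤
          (τ : ℝ) * (d : ℝ) ^ 2 * (1 / (p : ℝ) ^ 2) := by
        refine mul_le_mul_of_nonneg_right ?_ (by positivity)
        have h4 : (gp d p : ℝ) ^ 2 ≤ (d : ℝ) ^ 2 := pow_le_pow_left₀ (by linarith) hgd 2
        have h5 : 0 ≤ (d : ℝ) ^ 2 := by positivity
        nlinarith
      linarith
  -- the sum
  have hsum : (τ : ℝ) * (Real.log (Real.log v) - Real.log (Real.log v₀)) - K ≤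
      ∑ p ∈ S, (gp d p : ℝ) / ((gp d p : ℝ) + (p : ℝ) - 1) := by
    have h1 := Finset.sum_le_sum hone
    rw [Finset.sum_sub_distrib, Finset.sum_comm, ← Finset.mul_sum] at h1
    have h2 : ∑ p ∈ S, 1 / (p : ℝ) ^ 2 ≤ Z :=
      hZs.sum_le_tsum S fun n _ => by positivity
    have h3 : ∑ e ∈ d.divisors, ((Real.log (Real.log v) - Real.log (Real.log v₀)) - 2 * Cf e) ≤
        ∑ e ∈ d.divisors, ∑ p ∈ S, (rho (Polynomial.cyclotomic e ℤ) p : ℝ) / (p : ℝ) := by
      refine Finset.sum_le_sum fun e he => ?_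
      have he0 : 0 < e := Nat.pos_of_mem_divisors he
      rw [← T3_Sg (rho (Polynomial.cyclotomic e ℤ)) v₀ v (by linarith) hv S hS]
      have h4 := abs_le.1 (hCf e he0 v (by linarith))
      have h5 := abs_le.1 (hCf e he0 v₀ hv0)
      linarith [h4.1, h5.2]
    rw [Finset.sum_sub_distrib, Finset.sum_const, nsmul_eq_mul, ← Finset.mul_sum] at h3
    have h6 : (τ : ℝ) * (d : ℝ) ^ 2 * ∑ p ∈ S, 1 / (p : ℝ) ^ 2 ≤ (τ : ℝ) * (d : ℝ) ^ 2 * Z :=
      mul_le_mul_of_nonneg_left h2 (by positivity)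
    rw [hK]
    linarith
  -- the product
  have hlv0 : 0 < Real.log v₀ := Real.log_pos (by linarith)
  have hlv : 0 < Real.log v := Real.log_pos (by linarith)
  calc ∏ p ∈ S, (1 - (gp d p : ℝ) / ((gp d p : ℝ) + (p : ℝ) - 1)) ≤
        ∏ p ∈ S, Real.exp (-((gp d p : ℝ) / ((gp d p : ℝ) + (p : ℝ) - 1))) := by
        refine Finset.prod_le_prod (fun p hp => ?_) fun p hp => ?_
        · have hpp : p.Prime := ((hS p).1 hp).1
          have hp1 : (1 : ℝ) ≤ (p : ℝ) := by exact_mod_cast hpp.one_lt.le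
          have hg1 : (1 : ℝ) ≤ (gp d p : ℝ) := by
            have h1 : 0 < gp d p := Nat.gcd_pos_of_pos_left _ (by omega)
            exact_mod_cast h1
          rw [sub_nonneg, div_le_one (by linarith)]
          linarith
        · have := Real.add_one_le_exp (-((gp d p : ℝ) / ((gp d p : ℝ) + (p : ℝ) - 1)))
          linarith
    _ = Real.exp (-∑ p ∈ S, (gp d p : ℝ) / ((gp d p : ℝ) + (p : ℝ) - 1)) := by
        rw [← Real.exp_sum, Finset.sum_neg_distrib]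
    _ ≤ Real.exp (K + (τ : ℝ) * (Real.log (Real.log v₀) - Real.log (Real.log v))) :=
        Real.exp_le_exp.2 (by linarith)
    _ = Real.exp K * (Real.log v₀ / Real.log v) ^ τ := by
        rw [Real.exp_add, Real.exp_nat_mul, ← Real.log_div hlv0.ne' hlv.ne',
          Real.exp_log (div_pos hlv0 hlv)]

/-- T3 -/
theorem t3 : ProdStmt := t3_of t3c

end Pool.Agent.H307R2.PW
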